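import Pool.Agent.H692R2.USS.T1
import Pool.Agent.TH339.MP.Q2

/-!
# Sums over the primes of a residue class beyond `q ^ 2`
-/

set_option autoImplicit false

namespace Pool.Agent.TH339.TW

open Finset Pool.Agent.TH339.MP

/-- Brun-Titchmarsh for the primes `p = a mod q` in `[q² 2^j, q² 2^(j+1))` -/
lemma bt_dyadic {q : ℕ} (hq : 2 ≤ q) (a j : ℕ) (S : Finset Nat.Primes)
    (hS : ∀ p ∈ S, (p : ℕ) % q = a ∧ q ^ 2 * 2 ^ j ≤ (p : ℕ) ∧ (p : ℕ) < q ^ 2 * 2 ^ (j + 1)) :
    (S.card : ℝ) ≤ 32 * ((q ^ 2 * 2 ^ j : ℕ) : ℝ) / Nat.totient q / (j + 1) := by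
  have hq0 : 0 < q := by omega
  have hN : 2 ≤ q * 2 ^ j := by
    have : 1 ≤ 2 ^ j := Nat.one_le_two_pow
    nlinarith
  have hbt := Pool.Agent.H692R2.USS.t1_brun_titchmarsh (q ^ 2 * 2 ^ j + a) q (q * 2 ^ j) hN hq0
  have key : ∀ p ∈ S, q * 2 ^ j ≤ (p : ℕ) / q ∧ (p : ℕ) / q < q * 2 ^ (j + 1) := by
    intro p hp
    obtain ⟨_, h2, h3⟩ := hS p hp
    refine ⟨?_, ?_⟩
    · rw [Nat.le_div_iff_mul_le hq0]
      calc q * 2 ^ j * q = q ^ 2 * 2 ^ j := by ring
        _ ≤ _ := h2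
    · rw [Nat.div_lt_iff_lt_mul hq0]
      calc (p : ℕ) < q ^ 2 * 2 ^ (j + 1) := h3
        _ = q * 2 ^ (j + 1) * q := by ring
  have hcard : S.card ≤ ((Finset.range (q * 2 ^ j)).filter
      (fun k => (q ^ 2 * 2 ^ j + a + k * q).Prime)).card := by
    refine Finset.card_le_card_of_injOn (fun p => (p : ℕ) / q - q * 2 ^ j) ?_ ?_
    · intro p hp
      have hp' : p ∈ S := hp
      obtain ⟨h1, h2⟩ := key p hp'
      have h3 : (p : ℕ) % q = a := (hS p hp').1
      rw [Finset.mem_coe, Finset.mem_filter, Finset.mem_range]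
      refine ⟨?_, ?_⟩
      · rw [pow_succ] at h2
        have : q * (2 ^ j * 2) = q * 2 ^ j + q * 2 ^ j := by ring
        change (p : ℕ) / q - q * 2 ^ j < q * 2 ^ j
        omega
      · have h4 : q ^ 2 * 2 ^ j + a + ((p : ℕ) / q - q * 2 ^ j) * q = (p : ℕ) := by
          have h5 : ((p : ℕ) / q - q * 2 ^ j) * q + q ^ 2 * 2 ^ j = (p : ℕ) / q * q := by
            rw [Nat.sub_mul]
            have h6 : q * 2 ^ j * q = q ^ 2 * 2 ^ j := by ring
            rw [h6]
            refine Nat.sub_add_cancel ?_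
            rw [← h6]
            exact Nat.mul_le_mul_right q h1
          have h7 := Nat.div_add_mod' (p : ℕ) q
          rw [h3] at h7
          omega
        rw [h4]
        exact p.2
    · intro p hp p' hp' h
      have hp1 : p ∈ S := hp
      have hp2 : p' ∈ S := hp'
      obtain ⟨h1, _⟩ := key p hp1
      obtain ⟨h2, _⟩ := key p' hp2
      have h3 : (p : ℕ) / q = (p' : ℕ) / q := by
        simp only at h
        omega
      have h4 := Nat.div_add_mod' (p : ℕ) q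
      have h5 := Nat.div_add_mod' (p' : ℕ) q
      rw [(hS p hp1).1, h3] at h4
      rw [(hS p' hp2).1] at h5
      exact Nat.Primes.coe_nat_injective (h4.symm.trans h5)
  have hq' : (0 : ℝ) < q := by exact_mod_cast hq0
  have htot : (0 : ℝ) < Nat.totient q := by exact_mod_cast Nat.totient_pos.mpr hq0
  have hlog2 : (0.69 : ℝ) < Real.log 2 := by
    have := Real.log_two_gt_d9
    linarith
  have hlog : (j + 1 : ℝ) * 0.69 ≤ Real.log ((q * 2 ^ j : ℕ) : ℝ) := by
    have h1 : ((2 : ℝ)) ^ (j + 1) ≤ ((q * 2 ^ j : ℕ) : ℝ) := by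
      push_cast
      rw [pow_succ]
      have : (2 : ℝ) ≤ q := by exact_mod_cast hq
      nlinarith [show (0 : ℝ) < 2 ^ j by positivity]
    have h2 := Real.log_le_log (by positivity) h1
    rw [Real.log_pow] at h2
    push_cast at h2 ⊢
    nlinarith [show (0 : ℝ) ≤ j by positivity]
  have hj : (0 : ℝ) < (j : ℝ) + 1 := by positivity
  have hcard' : (S.card : ℝ) ≤ (((Finset.range (q * 2 ^ j)).filter
      (fun k => (q ^ 2 * 2 ^ j + a + k * q).Prime)).card : ℝ) := by exact_mod_cast hcard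
  calc (S.card : ℝ) ≤ _ := hcard'
    _ ≤ 22 * ((q : ℝ) / Nat.totient q) * (q * 2 ^ j : ℕ) / Real.log (q * 2 ^ j : ℕ) := by
        exact_mod_cast hbt
    _ ≤ 22 * ((q : ℝ) / Nat.totient q) * (q * 2 ^ j : ℕ) / ((j + 1 : ℝ) * 0.69) :=
        div_le_div_of_nonneg_left (by positivity) (by positivity) hlog
    _ ≤ 32 * ((q ^ 2 * 2 ^ j : ℕ) : ℝ) / Nat.totient q / (j + 1) := by
        rw [div_div, div_le_div_iff₀ (by positivity) (by positivity)]
        push_cast
        have e1 : 22 * ((q : ℝ) / Nat.totient q) * (q * 2 ^ j) * (Nat.totient q * (j + 1)) =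
            22 * ((q : ℝ) ^ 2 * 2 ^ j) * (j + 1) := by
          field_simp
        rw [e1]
        have : 0 ≤ (q : ℝ) ^ 2 * 2 ^ j * (j + 1) := by positivity
        nlinarith

/-- the logarithmic series -/
lemma log_series {δ : ℝ} (h0 : 0 < δ) (h1 : δ ≤ 1) (J : Finset ℕ) :
    ∑ j ∈ J, ((2 : ℝ) ^ (-δ)) ^ j / (j + 1) ≤ 2 * Real.log (2 / δ) := by
  set y : ℝ := (2 : ℝ) ^ (-δ) with hy
  have hy0 : 0 < y := by positivity
  have hy1 : y ≤ 1 - δ / 2 := by
    have h2 := rpow_one_add_le_one_add_mul_self (s := -1 / 2) (by norm_num) h0.le h1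
    have h3 : (1 + (-1 / 2 : ℝ)) ^ δ = y := by
      rw [hy, Real.rpow_neg (by norm_num), ← Real.inv_rpow (by norm_num)]
      norm_num
    rw [h3] at h2
    linarith
  have hy2 : 1 / 2 ≤ y := by
    rw [hy]
    calc (1 / 2 : ℝ) = (2 : ℝ) ^ (-1 : ℝ) := by
          rw [Real.rpow_neg (by norm_num), Real.rpow_one]
          norm_num
      _ ≤ (2 : ℝ) ^ (-δ) := Real.rpow_le_rpow_of_exponent_le (by norm_num) (by linarith)
  have hlt : |y| < 1 := by
    rw [abs_of_pos hy0]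
    linarith
  have hs := Real.hasSum_pow_div_log_of_abs_lt_one hlt
  have h4 : ∑ j ∈ J, y ^ (j + 1) / ((j : ℝ) + 1) ≤ -Real.log (1 - y) :=
    sum_le_hasSum J (fun j _ => by positivity) hs
  have h5 : -Real.log (1 - y) ≤ Real.log (2 / δ) := by
    rw [← Real.log_inv]
    refine Real.log_le_log (by
      have : 0 < 1 - y := by linarith
      positivity) ?_
    rw [show 2 / δ = (δ / 2)⁻¹ by rw [inv_div]]
    exact inv_anti₀ (by positivity) (by linarith)
  have h6 : ∑ j ∈ J, y ^ j / ((j : ℝ) + 1) ≤ 2 * ∑ j ∈ J, y ^ (j + 1) / ((j : ℝ) + 1) := by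
    rw [Finset.mul_sum]
    refine Finset.sum_le_sum fun j _ => ?_
    rw [pow_succ, ← mul_div_assoc]
    refine div_le_div_of_nonneg_right ?_ (by positivity)
    nlinarith [pow_pos hy0 j]
  linarith

/-- the sum over a residue class -/
lemma class_sum {q : ℕ} (hq : 2 ≤ q) (a : ℕ) {δ : ℝ} (h0 : 0 < δ) (h1 : δ ≤ 1)
    (S : Finset Nat.Primes) (hS : ∀ p ∈ S, (p : ℕ) % q = a ∧ q ^ 2 ≤ (p : ℕ)) :
    ∑ p ∈ S, ((p : ℕ) : ℝ) ^ (-(1 + δ)) ≤ 64 * Real.log (2 / δ) / Nat.totient q := by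
  classical
  have hq0 : 0 < q := by omega
  have hqq : 0 < q ^ 2 := by positivity
  have htot : (0 : ℝ) < Nat.totient q := by exact_mod_cast Nat.totient_pos.mpr hq0
  set lv : Nat.Primes → ℕ := fun p => Nat.log 2 ((p : ℕ) / q ^ 2) with hlv
  have hfib := Finset.sum_fiberwise_of_maps_to (s := S) (t := S.image lv) (g := lv)
    (fun p hp => Finset.mem_image_of_mem _ hp) (fun p => ((p : ℕ) : ℝ) ^ (-(1 + δ)))
  rw [← hfib]
  have hone : ∀ j ∈ S.image lv, ∑ p ∈ S.filter (fun p => lv p = j), ((p : ℕ) : ℝ) ^ (-(1 + δ)) ≤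
      32 / Nat.totient q * (((2 : ℝ) ^ (-δ)) ^ j / (j + 1)) := by
    intro j _
    have hmem : ∀ p ∈ S.filter (fun p => lv p = j),
        (p : ℕ) % q = a ∧ q ^ 2 * 2 ^ j ≤ (p : ℕ) ∧ (p : ℕ) < q ^ 2 * 2 ^ (j + 1) := by
      intro p hp
      rw [Finset.mem_filter] at hp
      obtain ⟨hp1, hp2⟩ := hp
      obtain ⟨g1, g2⟩ := hS p hp1
      have hd : (p : ℕ) / q ^ 2 ≠ 0 := by
        have := Nat.div_pos g2 hqq
        omega
      have k1 : 2 ^ j ≤ (p : ℕ) / q ^ 2 := by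
        rw [← hp2]
        exact Nat.pow_log_le_self 2 hd
      have k2 : (p : ℕ) / q ^ 2 < 2 ^ (j + 1) := by
        rw [← hp2]
        exact Nat.lt_pow_succ_log_self (by norm_num) _
      refine ⟨g1, ?_, ?_⟩
      · rw [Nat.le_div_iff_mul_le hqq] at k1
        linarith
      · rw [Nat.div_lt_iff_lt_mul hqq] at k2
        linarith
    set X : ℝ := ((q ^ 2 * 2 ^ j : ℕ) : ℝ) with hX
    have hX0 : 0 < X := by
      rw [hX]
      positivity
    have hterm : ∀ p ∈ S.filter (fun p => lv p = j),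
        ((p : ℕ) : ℝ) ^ (-(1 + δ)) ≤ X ^ (-(1 + δ)) := by
      intro p hp
      refine Real.rpow_le_rpow_of_nonpos hX0 ?_ (by linarith)
      rw [hX]
      exact_mod_cast (hmem p hp).2.1
    have hcard := bt_dyadic hq a j _ hmem
    rw [← hX] at hcard
    have hXδ : X ^ (-δ) ≤ ((2 : ℝ) ^ (-δ)) ^ j := by
      rw [← Real.rpow_natCast, ← Real.rpow_mul (by norm_num), mul_comm, Real.rpow_mul (by norm_num),
        Real.rpow_natCast]
      refine Real.rpow_le_rpow_of_nonpos (by positivity) ?_ (by linarith)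
      rw [hX]
      push_cast
      have : (1 : ℝ) ≤ (q : ℝ) ^ 2 := by exact_mod_cast hqq
      nlinarith [show (0 : ℝ) < 2 ^ j by positivity]
    calc ∑ p ∈ S.filter (fun p => lv p = j), ((p : ℕ) : ℝ) ^ (-(1 + δ))
        ≤ ∑ p ∈ S.filter (fun p => lv p = j), X ^ (-(1 + δ)) := Finset.sum_le_sum hterm
      _ = ((S.filter (fun p => lv p = j)).card : ℝ) * X ^ (-(1 + δ)) := by
          rw [Finset.sum_const, nsmul_eq_mul]
      _ ≤ (32 * X / Nat.totient q / (j + 1)) * X ^ (-(1 + δ)) :=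
          mul_le_mul_of_nonneg_right hcard (by positivity)
      _ = 32 / Nat.totient q * (X ^ (-δ) / (j + 1)) := by
          have : X ^ (-(1 + δ)) = X⁻¹ * X ^ (-δ) := by
            rw [show -(1 + δ) = -1 + -δ by ring, Real.rpow_add hX0, Real.rpow_neg_one]
          rw [this]
          field_simp
      _ ≤ _ := by
          refine mul_le_mul_of_nonneg_left ?_ (by positivity)
          exact div_le_div_of_nonneg_right hXδ (by positivity)
  refine (Finset.sum_le_sum hone).trans ?_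
  rw [← Finset.mul_sum]
  refine (mul_le_mul_of_nonneg_left (log_series h0 h1 _) (by positivity)).trans (le_of_eq ?_)
  ring

end Pool.Agent.TH339.TW
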