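import Mathlib

/-!
# The mean square over the Dirichlet characters of a modulus
-/

set_option autoImplicit false

namespace Pool.Agent.TH339.TW

open Finset

section
variable {ι : Type} {q : ℕ} [NeZero q]

lemma star_char {a : ZMod q} (ha : IsUnit a) (χ : DirichletCharacter ℂ q) :
    (starRingEnd ℂ) (χ a) = χ a⁻¹ := by
  have h1 : ‖χ a‖ = 1 := by
    obtain ⟨u, hu⟩ := ha
    rw [← hu]
    exact DirichletCharacter.unit_norm_eq_one χ u
  have h2 : χ a⁻¹ * χ a = 1 := by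
    rw [← map_mul, ZMod.inv_mul_of_unit a ha, map_one]
  rw [← Complex.inv_eq_conj h1]
  exact (eq_inv_of_mul_eq_one_left h2).symm

/-- the mean square -/
lemma second_moment (n : ι → ℕ) (S : Finset ι) (c : ι → ℂ) (hS : ∀ i ∈ S, Nat.Coprime (n i) q)
    {B : ℝ} (hB0 : 0 ≤ B) (hB : ∀ a : ℕ, ∑ i ∈ S.filter (fun i => n i % q = a), ‖c i‖ ≤ B) :
    ∑ χ : DirichletCharacter ℂ q, ‖∑ i ∈ S, χ (n i : ZMod q) * c i‖ ^ 2 ≤
      ((Nat.totient q : ℝ) * B) ^ 2 := by
  classical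
  have htot : (0 : ℝ) ≤ Nat.totient q := Nat.cast_nonneg _
  have hunit : ∀ i ∈ S, IsUnit ((n i : ZMod q)) := fun i hi =>
    (ZMod.isUnit_iff_coprime (n i) q).2 (hS i hi)
  have h1 : ∀ χ : DirichletCharacter ℂ q,
      ((‖∑ i ∈ S, χ (n i : ZMod q) * c i‖ ^ 2 : ℝ) : ℂ) =
      ∑ i ∈ S, ∑ k ∈ S, c i * (starRingEnd ℂ) (c k) *
        (χ ((n k : ZMod q))⁻¹ * χ (n i : ZMod q)) := by
    intro χ
    rw [← Complex.normSq_eq_norm_sq, ← Complex.mul_conj, map_sum, Finset.sum_mul_sum]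
    refine Finset.sum_congr rfl fun i hi => Finset.sum_congr rfl fun k hk => ?_
    rw [map_mul, star_char (hunit k hk)]
    ring
  have h2 : ((∑ χ : DirichletCharacter ℂ q, ‖∑ i ∈ S, χ (n i : ZMod q) * c i‖ ^ 2 : ℝ) : ℂ) =
      ∑ i ∈ S, ∑ k ∈ S, c i * (starRingEnd ℂ) (c k) *
        (if (n k : ZMod q) = (n i : ZMod q) then (Nat.totient q : ℂ) else 0) := by
    push_cast
    have h3 : ∀ χ : DirichletCharacter ℂ q,
      ((‖∑ i ∈ S, χ (n i : ZMod q) * c i‖ : ℂ)) ^ 2 =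
      ∑ i ∈ S, ∑ k ∈ S, c i * (starRingEnd ℂ) (c k) *
        (χ ((n k : ZMod q))⁻¹ * χ (n i : ZMod q)) := by
      intro χ
      rw [← h1 χ]
      push_cast
      rfl
    rw [Finset.sum_congr rfl fun χ _ => h3 χ, Finset.sum_comm]
    refine Finset.sum_congr rfl fun i hi => ?_
    rw [Finset.sum_comm]
    refine Finset.sum_congr rfl fun k hk => ?_
    rw [← Finset.mul_sum, DirichletCharacter.sum_char_inv_mul_char_eq ℂ (hunit k hk)]
  have hnn : 0 ≤ ∑ χ : DirichletCharacter ℂ q, ‖∑ i ∈ S, χ (n i : ZMod q) * c i‖ ^ 2 :=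
    Finset.sum_nonneg fun χ _ => by positivity
  have h4 : ∑ χ : DirichletCharacter ℂ q, ‖∑ i ∈ S, χ (n i : ZMod q) * c i‖ ^ 2 =
      ‖∑ i ∈ S, ∑ k ∈ S, c i * (starRingEnd ℂ) (c k) *
        (if (n k : ZMod q) = (n i : ZMod q) then (Nat.totient q : ℂ) else 0)‖ := by
    rw [← h2, Complex.norm_real, Real.norm_of_nonneg hnn]
  rw [h4]
  have h5 : ∀ i ∈ S, ‖∑ k ∈ S, c i * (starRingEnd ℂ) (c k) *
        (if (n k : ZMod q) = (n i : ZMod q) then (Nat.totient q : ℂ) else 0)‖ ≤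
      ‖c i‖ * ((Nat.totient q : ℝ) * B) := by
    intro i _
    refine (norm_sum_le _ _).trans ?_
    have h6 : ∀ k ∈ S, ‖c i * (starRingEnd ℂ) (c k) *
        (if (n k : ZMod q) = (n i : ZMod q) then (Nat.totient q : ℂ) else 0)‖ =
        if n k % q = n i % q then ‖c i‖ * (Nat.totient q : ℝ) * ‖c k‖ else 0 := by
      intro k _
      by_cases h : n k % q = n i % q
      · rw [if_pos h, if_pos ((ZMod.natCast_eq_natCast_iff' _ _ _).2 h), norm_mul, norm_mul,
          Complex.norm_conj, Complex.norm_natCast]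
        ring
      · rw [if_neg h, if_neg (fun h' => h ((ZMod.natCast_eq_natCast_iff' _ _ _).1 h')), mul_zero,
          norm_zero]
    rw [Finset.sum_congr rfl h6, ← Finset.sum_filter, ← Finset.mul_sum]
    have h7 := mul_le_mul_of_nonneg_left (hB (n i % q))
      (mul_nonneg (norm_nonneg (c i)) htot)
    linarith
  have h8 : ∑ i ∈ S, ‖c i‖ ≤ (Nat.totient q : ℝ) * B := by
    have hfib := Finset.sum_fiberwise_of_maps_to (s := S)
      (t := (Finset.range q).filter (fun a => q.Coprime a)) (g := fun i => n i % q)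
      (fun i hi => by
        rw [Finset.mem_filter, Finset.mem_range]
        refine ⟨Nat.mod_lt _ (Nat.pos_of_ne_zero (NeZero.ne q)), ?_⟩
        have := hS i hi
        rw [Nat.Coprime, Nat.gcd_comm, ← Nat.gcd_rec, Nat.gcd_comm]
        exact this) (fun i => ‖c i‖)
    rw [← hfib]
    refine (Finset.sum_le_card_nsmul _ _ B fun a _ => hB a).trans (le_of_eq ?_)
    rw [nsmul_eq_mul, Nat.totient_eq_card_coprime]
  calc _ ≤ ∑ i ∈ S, ‖∑ k ∈ S, c i * (starRingEnd ℂ) (c k) *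
        (if (n k : ZMod q) = (n i : ZMod q) then (Nat.totient q : ℂ) else 0)‖ := norm_sum_le _ _
    _ ≤ ∑ i ∈ S, ‖c i‖ * ((Nat.totient q : ℝ) * B) := Finset.sum_le_sum h5
    _ = (∑ i ∈ S, ‖c i‖) * ((Nat.totient q : ℝ) * B) := by rw [Finset.sum_mul]
    _ ≤ ((Nat.totient q : ℝ) * B) * ((Nat.totient q : ℝ) * B) :=
        mul_le_mul_of_nonneg_right h8 (mul_nonneg htot hB0)
    _ = _ := by ring

/-- the mean square of an absolutely convergent series -/
lemma second_moment_tsum (n : ι → ℕ) (c : ι → ℂ) (hc : Summable fun i => ‖c i‖)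
    (hS : ∀ i, c i ≠ 0 → Nat.Coprime (n i) q)
    {B : ℝ} (hB0 : 0 ≤ B)
    (hB : ∀ (S : Finset ι) (a : ℕ), ∑ i ∈ S.filter (fun i => n i % q = a), ‖c i‖ ≤ B) :
    ∑ χ : DirichletCharacter ℂ q, ‖∑' i, χ (n i : ZMod q) * c i‖ ^ 2 ≤
      ((Nat.totient q : ℝ) * B) ^ 2 := by
  classical
  have hsum : ∀ χ : DirichletCharacter ℂ q, Summable fun i => χ (n i : ZMod q) * c i := by
    intro χ
    refine Summable.of_norm_bounded hc fun i => ?_
    rw [norm_mul]
    have := DirichletCharacter.norm_le_one χ (n i : ZMod q)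
    nlinarith [norm_nonneg (c i)]
  have hlim : Filter.Tendsto (fun S : Finset ι => ∑ χ : DirichletCharacter ℂ q,
      ‖∑ i ∈ S, χ (n i : ZMod q) * c i‖ ^ 2) Filter.atTop
      (nhds (∑ χ : DirichletCharacter ℂ q, ‖∑' i, χ (n i : ZMod q) * c i‖ ^ 2)) :=
    tendsto_finset_sum _ fun χ _ => ((hsum χ).hasSum.norm.pow 2)
  refine le_of_tendsto hlim (Filter.Eventually.of_forall fun S => ?_)
  have h1 : ∀ χ : DirichletCharacter ℂ q, ∑ i ∈ S, χ (n i : ZMod q) * c i =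
      ∑ i ∈ S.filter (fun i => c i ≠ 0), χ (n i : ZMod q) * c i := by
    intro χ
    rw [Finset.sum_filter]
    refine Finset.sum_congr rfl fun i _ => ?_
    by_cases h : c i = 0
    · simp [h]
    · simp [h]
  rw [Finset.sum_congr rfl fun χ _ => by rw [h1 χ]]
  refine second_moment n _ c (fun i hi => hS i (Finset.mem_filter.1 hi).2) hB0 fun a => ?_
  exact hB (S.filter (fun i => c i ≠ 0)) a

end

end Pool.Agent.TH339.TW
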