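import Pool.Agent.Helper923.HMertens
import Pool.Agent.TH339.MP.U2
import Pool.Agent.TH339.MP.V5
import Pool.Agent.TH339.TW.A1
import Pool.Agent.TH339.TW.A2

/-!
# The logarithm of an Euler product near the edge, for almost all characters
-/

set_option autoImplicit false

namespace Pool.Agent.TH339.TW

open Finset Pool.Agent.TH339.MP

/-- the small primes -/
lemma small_sum : ∃ C : ℝ, 0 ≤ C ∧ ∀ q : ℕ, 2 ≤ q → ∀ S : Finset Nat.Primes,
    (∀ p ∈ S, (p : ℕ) < q ^ 2) → ∑ p ∈ S, 1 / ((p : ℕ) : ℝ) ≤ Real.log (Real.log q) + C := by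
  obtain ⟨C, hC0, hC⟩ := Pool.Agent.Helper923.HMertens.mertens_ratio
  have hl2 : 0 < Real.log 2 := Real.log_pos (by norm_num)
  refine ⟨1 / 2 + Real.log 2 + |Real.log (Real.log 2)| + C / Real.log 2, by positivity,
    fun q hq S hS => ?_⟩
  have hq2 : 2 ≤ q ^ 2 := by nlinarith
  have h1 : ∑ p ∈ S, 1 / ((p : ℕ) : ℝ) = ∑ n ∈ S.image (fun p : Nat.Primes => (p : ℕ)),
      1 / (n : ℝ) := by
    exact (Finset.sum_image (f := fun n : ℕ => 1 / (n : ℝ)) (g := fun p : Nat.Primes => (p : ℕ))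
      fun x _ y _ h => Nat.Primes.coe_nat_injective h).symm
  have hsub : S.image (fun p : Nat.Primes => (p : ℕ)) ⊆
      insert 2 ((Finset.Ioc 2 (q ^ 2)).filter Nat.Prime) := by
    intro n hn
    rw [Finset.mem_image] at hn
    obtain ⟨p, hp, rfl⟩ := hn
    rw [Finset.mem_insert, Finset.mem_filter, Finset.mem_Ioc]
    have h2 := p.2.two_le
    have h3 := hS p hp
    by_cases h : (p : ℕ) = 2
    · exact Or.inl h
    · exact Or.inr ⟨⟨by omega, h3.le⟩, p.2⟩
  rw [h1]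
  refine (Finset.sum_le_sum_of_subset_of_nonneg hsub fun _ _ _ => by positivity).trans ?_
  rw [Finset.sum_insert (by simp)]
  have h3 := (abs_le.1 (hC 2 (q ^ 2) le_rfl hq2)).2
  have hlq : 0 < Real.log q := Real.log_pos (by exact_mod_cast (by omega : 1 < q))
  have h4 : Real.log (Real.log ((q ^ 2 : ℕ) : ℝ) / Real.log ((2 : ℕ) : ℝ)) =
      Real.log 2 + Real.log (Real.log q) - Real.log (Real.log 2) := by
    push_cast
    rw [Real.log_pow, Real.log_div (by positivity) hl2.ne', Real.log_mul (by norm_num) hlq.ne']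
    norm_num
  rw [h4] at h3
  have h5 := neg_abs_le (Real.log (Real.log 2))
  push_cast at h3 ⊢
  linarith

section
variable {b : PP → ℂ} {M : ℝ}

/-- moving down by a factor at most two -/
lemma radial_move (hb : ∀ x, ‖b x‖ ≤ M / (x.2 + 1 : ℕ)) {h δ : ℝ} (hh : 0 < h) (hh2 : h ≤ 1 / 2)
    (h1 : h / 2 ≤ δ) (h2 : δ ≤ h) (u : ℝ) :
    ‖FF b (((1 + δ : ℝ) : ℂ) + u * Complex.I) - FF b (((1 + h : ℝ) : ℂ) + u * Complex.I)‖ ≤
      1.1 * M := by
  have hM := M_nonneg hb
  have g1 : (1 : ℝ) < 1 + h := by linarith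
  have g2 : (1 : ℝ) < 1 + h / 2 := by linarith
  have hs : ∀ σ : ℝ, 1 < σ → Summable fun x => tm b (((σ : ℝ) : ℂ) + u * Complex.I) x :=
    fun σ hσ => summable_tm hb (by simpa using hσ)
  have hsum : Summable fun x : PP => M * ((wt (1 + h / 2) x - wt (1 + h) x) / (x.2 + 1 : ℕ)) := by
    refine Summable.mul_left M ?_
    refine ((summable_wt g2).sub (summable_wt g1)).congr fun x => ?_
    ring
  have hterm : ∀ x, ‖tm b (((1 + δ : ℝ) : ℂ) + u * Complex.I) x -
      tm b (((1 + h : ℝ) : ℂ) + u * Complex.I) x‖ ≤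
      M * ((wt (1 + h / 2) x - wt (1 + h) x) / (x.2 + 1 : ℕ)) := by
    intro x
    rw [tm_eq, tm_eq, ← sub_mul, ← mul_sub, norm_mul, norm_ee, mul_one, norm_mul,
      ← Complex.ofReal_sub, Complex.norm_real]
    have hd : 0 ≤ wt (1 + δ) x - wt (1 + h) x := by
      have := wt_anti' (σ := 1 + δ) (σ' := 1 + h) (by linarith) x
      linarith
    rw [Real.norm_of_nonneg hd]
    have hd2 : wt (1 + δ) x - wt (1 + h) x ≤ wt (1 + h / 2) x - wt (1 + h) x := by
      have := wt_anti' (σ := 1 + h / 2) (σ' := 1 + δ) (by linarith) x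
      linarith
    have hk : (0 : ℝ) < ((x.2 + 1 : ℕ) : ℝ) := by exact_mod_cast Nat.succ_pos _
    calc ‖b x‖ * (wt (1 + δ) x - wt (1 + h) x)
        ≤ (M / (x.2 + 1 : ℕ)) * (wt (1 + h / 2) x - wt (1 + h) x) :=
          mul_le_mul (hb x) hd2 hd (by positivity)
      _ = _ := by ring
  unfold FF
  rw [← (hs _ (by linarith)).tsum_sub (hs _ g1)]
  refine (tsum_of_norm_bounded hsum.hasSum hterm).trans ?_
  rw [tsum_mul_left]
  have h4 : ∑' x : PP, (wt (1 + h / 2) x - wt (1 + h) x) / (x.2 + 1 : ℕ) =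
      ZZ (1 + h / 2) - ZZ (1 + h) := by
    unfold ZZ
    rw [← (summable_wt g2).tsum_sub (summable_wt g1)]
    exact tsum_congr fun x => by ring
  rw [h4, mul_comm]
  exact mul_le_mul_of_nonneg_right (ZZ_diff hh hh2) hM

/-- far from the edge -/
lemma far_bound (hb : ∀ x, ‖b x‖ ≤ M / (x.2 + 1 : ℕ)) {δ : ℝ} (h1 : 1 / 2 ≤ δ) (u : ℝ) :
    ‖FF b (((1 + δ : ℝ) : ℂ) + u * Complex.I)‖ ≤ M * ZZ (3 / 2) := by
  have hM := M_nonneg hb
  unfold FF
  refine (tsum_of_norm_bounded ((summable_wt (σ := 3 / 2) (by norm_num)).mul_left M).hasSum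
    (fun x => ?_)).trans (le_of_eq ?_)
  · rw [tm_eq, norm_mul, norm_ee, mul_one, norm_mul, Complex.norm_real,
      Real.norm_of_nonneg (wt_nonneg _ x)]
    have hd := wt_anti' (σ := 3 / 2) (σ' := 1 + δ) (by linarith) x
    have hk : (0 : ℝ) < ((x.2 + 1 : ℕ) : ℝ) := by exact_mod_cast Nat.succ_pos _
    calc ‖b x‖ * wt (1 + δ) x ≤ (M / (x.2 + 1 : ℕ)) * wt (3 / 2) x :=
          mul_le_mul (hb x) hd (wt_nonneg _ x) (by positivity)
      _ = _ := by ring
  · rw [tsum_mul_left]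
    rfl

/-- the proper powers -/
lemma hpart_bound (hb : ∀ x, ‖b x‖ ≤ M / (x.2 + 1 : ℕ)) {s : ℂ} (hs : 1 ≤ s.re) :
    ‖hpart b s‖ ≤ M * ∑' x : PP, wt 1 (sh x) := by
  unfold hpart
  refine (tsum_of_norm_bounded (wt_sh_summable.mul_left M).hasSum
    (fun x => norm_tm_sh hb hs x)).trans (le_of_eq ?_)
  rw [tsum_mul_left]

/-- the large primes -/
noncomputable def big (q : ℕ) (b : PP → ℂ) (s : ℂ) : ℂ :=
  ∑' p : Nat.Primes, if q ^ 2 ≤ (p : ℕ) then tm b s (p, 0) else 0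

end

/-- The logarithm is the sum over the large primes up to `M (log log q + C)`. -/
lemma split_bound : ∃ C : ℝ, 0 ≤ C ∧ ∀ q : ℕ, 2 ≤ q → ∀ (b : PP → ℂ) (M : ℝ),
    (∀ x, ‖b x‖ ≤ M / (x.2 + 1 : ℕ)) → ∀ s : ℂ, 1 < s.re →
    ‖FF b s - big q b s‖ ≤ M * (Real.log (Real.log q) + C) := by
  obtain ⟨C₁, hC₁, h1⟩ := small_sum
  set H : ℝ := ∑' x : PP, wt 1 (sh x) with hH
  have hH0 : 0 ≤ H := tsum_nonneg fun x => wt_nonneg _ _
  refine ⟨C₁ + H, by positivity, fun q hq b M hb s hs => ?_⟩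
  have hM := M_nonneg hb
  have hsp := FF_split hb hs
  have h2 : Summable fun p : Nat.Primes => tm b s (p, 0) :=
    (summable_tm hb hs).comp_injective (i := fun p : Nat.Primes => ((p, 0) : PP))
      fun p q h => congrArg Prod.fst h
  have h3 : Summable fun p : Nat.Primes => if q ^ 2 ≤ (p : ℕ) then tm b s (p, 0) else 0 :=
    Summable.of_norm_bounded h2.norm fun p => by
      split_ifs
      · exact le_rfl
      · rw [norm_zero]
        exact norm_nonneg _
  have h4 : (∑' p : Nat.Primes, tm b s (p, 0)) - big q b s =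
      ∑' p : Nat.Primes, if q ^ 2 ≤ (p : ℕ) then 0 else tm b s (p, 0) := by
    unfold big
    rw [← h2.tsum_sub h3]
    refine tsum_congr fun p => ?_
    split_ifs <;> simp
  have h5 : ‖∑' p : Nat.Primes, if q ^ 2 ≤ (p : ℕ) then 0 else tm b s (p, 0)‖ ≤
      M * (Real.log (Real.log q) + C₁) := by
    have h6 : Summable fun p : Nat.Primes => ‖if q ^ 2 ≤ (p : ℕ) then 0 else tm b s (p, 0)‖ :=
      Summable.of_nonneg_of_le (fun _ => norm_nonneg _) (fun p => by
        split_ifs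
        · rw [norm_zero]
          exact norm_nonneg _
        · exact le_rfl) h2.norm
    refine (norm_tsum_le_tsum_norm h6).trans (h6.tsum_le_of_sum_le fun S => ?_)
    have h7 : ∀ p : Nat.Primes, ‖if q ^ 2 ≤ (p : ℕ) then 0 else tm b s (p, 0)‖ ≤
        if (p : ℕ) < q ^ 2 then M * (1 / ((p : ℕ) : ℝ)) else 0 := by
      intro p
      by_cases h : q ^ 2 ≤ (p : ℕ)
      · rw [if_pos h, if_neg (not_lt.2 h), norm_zero]
      · rw [if_neg h, if_pos (not_le.1 h), norm_tm]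
        have h8 := norm_b_le hb (p, 0)
        have h9 := wt_anti (σ := s.re) hs.le (p, 0)
        have h10 : wt 1 (p, 0) = 1 / ((p : ℕ) : ℝ) := by
          rw [wt_one]
          unfold qq
          simp
        rw [h10] at h9
        exact mul_le_mul h8 h9 (wt_nonneg _ _) hM
    refine (Finset.sum_le_sum fun p _ => h7 p).trans ?_
    rw [← Finset.sum_filter, ← Finset.mul_sum]
    exact mul_le_mul_of_nonneg_left (h1 q hq _ fun p hp => (Finset.mem_filter.1 hp).2) hM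
  have h11 := hpart_bound hb hs.le
  have h12 : FF b s - big q b s = ((∑' p : Nat.Primes, tm b s (p, 0)) - big q b s) + hpart b s := by
    rw [hsp]
    ring
  rw [h12, h4]
  refine (norm_add_le _ _).trans ?_
  rw [← hH] at h11
  linarith

end Pool.Agent.TH339.TW
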