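import Pool.Agent.TH339.TW.A3

/-!
# Counting the exceptional characters
-/

set_option autoImplicit false

namespace Pool.Agent.TH339.TW

open Finset Pool.Agent.TH339.MP

lemma rpow_wt (p : Nat.Primes) (σ : ℝ) : wt σ (p, 0) = ((p : ℕ) : ℝ) ^ (-σ) := by
  unfold wt
  simp

/-- the exceptional characters at the height `h` -/
lemma count_level {q : ℕ} (hq : 2 ≤ q) [NeZero q] {b : PP → ℂ} {M : ℝ} (hM : 0 < M)
    (hb : ∀ x, ‖b x‖ ≤ M / (x.2 + 1 : ℕ)) (ω : DirichletCharacter ℂ q → Om)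
    (hω : ∀ χ (p : Nat.Primes), Nat.Coprime (p : ℕ) q → ((ω χ p : Circle) : ℂ) = χ ((p : ℕ) : ZMod q))
    (τ : ℝ) {h : ℝ} (hh : 0 < h) (hh2 : h ≤ 1 / 2) :
    (({χ : DirichletCharacter ℂ q | M < ‖big q (tb b (ω χ))
      (((1 + h : ℝ) : ℂ) + τ * Complex.I)‖}.ncard : ℕ) : ℝ) ≤ (64 * Real.log (2 / h)) ^ 2 := by
  classical
  set s : ℂ := ((1 + h : ℝ) : ℂ) + τ * Complex.I with hs
  have hre : s.re = 1 + h := by simp [hs]
  have hlt : 1 < s.re := by rw [hre]; linarith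
  have hq0 : 0 < q := by omega
  have htot : (0 : ℝ) < Nat.totient q := by exact_mod_cast Nat.totient_pos.mpr hq0
  set c : Nat.Primes → ℂ := fun p => if q ^ 2 ≤ (p : ℕ) then tm b s (p, 0) / M else 0 with hc
  have hcop : ∀ p : Nat.Primes, q ^ 2 ≤ (p : ℕ) → Nat.Coprime (p : ℕ) q := by
    intro p hp
    rw [Nat.Prime.coprime_iff_not_dvd p.2]
    intro hd
    have h1 := Nat.le_of_dvd hq0 hd
    nlinarith
  have hbig : ∀ χ : DirichletCharacter ℂ q, big q (tb b (ω χ)) s =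
      M * ∑' p : Nat.Primes, χ ((p : ℕ) : ZMod q) * c p := by
    intro χ
    unfold big
    rw [← tsum_mul_left]
    refine tsum_congr fun p => ?_
    simp only [hc]
    split_ifs with h1
    · have hM' : (M : ℂ) ≠ 0 := by exact_mod_cast hM.ne'
      rw [← hω χ p (hcop p h1)]
      unfold tm tb
      simp only [zero_add, pow_one]
      field_simp
    · simp
  have hnc : ∀ p, ‖c p‖ ≤ ((p : ℕ) : ℝ) ^ (-(1 + h)) := by
    intro p
    simp only [hc]
    split_ifs with h1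
    · rw [norm_div, norm_tm, hre, rpow_wt, Complex.norm_real, Real.norm_of_nonneg hM.le,
        div_le_iff₀ hM]
      have h2 := norm_b_le hb (p, 0)
      have h3 : 0 ≤ ((p : ℕ) : ℝ) ^ (-(1 + h)) := Real.rpow_nonneg (prime_pos p).le _
      nlinarith
    · rw [norm_zero]
      exact Real.rpow_nonneg (prime_pos p).le _
  have hcs : Summable fun p => ‖c p‖ :=
    Summable.of_nonneg_of_le (fun _ => norm_nonneg _) hnc
      ((Nat.Primes.summable_rpow (r := -(1 + h))).2 (by linarith))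
  have hlog : 0 ≤ Real.log (2 / h) := Real.log_nonneg (by
    rw [le_div_iff₀ hh]
    linarith)
  have hmom := second_moment_tsum (q := q) (fun p : Nat.Primes => (p : ℕ)) c hcs
    (fun p hp => hcop p (by
      by_contra h1
      apply hp
      simp only [hc]
      rw [if_neg h1])) (B := 64 * Real.log (2 / h) / Nat.totient q) (by positivity)
    (fun S a => by
      have h1 : ∑ p ∈ S.filter (fun p : Nat.Primes => (p : ℕ) % q = a), ‖c p‖ ≤
          ∑ p ∈ (S.filter (fun p : Nat.Primes => (p : ℕ) % q = a)).filter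
            (fun p : Nat.Primes => q ^ 2 ≤ (p : ℕ)), ((p : ℕ) : ℝ) ^ (-(1 + h)) := by
        rw [Finset.sum_filter (p := fun p : Nat.Primes => q ^ 2 ≤ (p : ℕ))]
        refine Finset.sum_le_sum fun p _ => ?_
        by_cases h2 : q ^ 2 ≤ (p : ℕ)
        · rw [if_pos h2]
          exact hnc p
        · rw [if_neg h2]
          simp only [hc]
          rw [if_neg h2, norm_zero]
      refine h1.trans (class_sum hq a hh (by linarith) _ fun p hp => ?_)
      rw [Finset.mem_filter, Finset.mem_filter] at hp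
      exact ⟨hp.1.2, hp.2⟩)
  have e1 : ((Nat.totient q : ℝ) * (64 * Real.log (2 / h) / Nat.totient q)) ^ 2 =
      (64 * Real.log (2 / h)) ^ 2 := by
    congr 1
    field_simp
  rw [e1] at hmom
  refine le_trans ?_ hmom
  have hset : {χ : DirichletCharacter ℂ q | M < ‖big q (tb b (ω χ)) s‖} =
      ((Finset.univ.filter fun χ : DirichletCharacter ℂ q =>
        M < ‖big q (tb b (ω χ)) s‖ : Finset _) : Set _) := by
    ext χ
    simp
  rw [hset, Set.ncard_coe_finset]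
  calc (((Finset.univ.filter fun χ : DirichletCharacter ℂ q =>
        M < ‖big q (tb b (ω χ)) s‖).card : ℕ) : ℝ) =
      ∑ χ ∈ Finset.univ.filter (fun χ : DirichletCharacter ℂ q =>
        M < ‖big q (tb b (ω χ)) s‖), (1 : ℝ) := by
        rw [Finset.sum_const, nsmul_eq_mul, mul_one]
    _ ≤ ∑ χ ∈ Finset.univ.filter (fun χ : DirichletCharacter ℂ q =>
        M < ‖big q (tb b (ω χ)) s‖), ‖∑' p : Nat.Primes, χ ((p : ℕ) : ZMod q) * c p‖ ^ 2 := by
        refine Finset.sum_le_sum fun χ hχ => ?_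
        rw [Finset.mem_filter] at hχ
        have h1 := hχ.2
        rw [hbig, norm_mul, Complex.norm_real, Real.norm_of_nonneg hM.le] at h1
        have h2 : 1 < ‖∑' p : Nat.Primes, χ ((p : ℕ) : ZMod q) * c p‖ := by
          by_contra h3
          push Not at h3
          nlinarith
        nlinarith
    _ ≤ _ := Finset.sum_le_sum_of_subset_of_nonneg (Finset.filter_subset _ _)
        fun χ _ _ => by positivity

/-- **The logarithms of all but few twists**, near one point of the edge. -/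
theorem twists : ∃ C : ℝ, 0 < C ∧ ∀ (q : ℕ), 2 ≤ q → ∀ [NeZero q] (b : PP → ℂ) (M : ℝ), 0 < M →
    (∀ x, ‖b x‖ ≤ M / (x.2 + 1 : ℕ)) → ∀ ω : DirichletCharacter ℂ q → Om,
    (∀ χ (p : Nat.Primes), Nat.Coprime (p : ℕ) q → ((ω χ p : Circle) : ℂ) = χ ((p : ℕ) : ZMod q)) →
    ∀ (τ : ℝ) (δ₀ : ℝ), 0 < δ₀ → δ₀ ≤ 1 / 2 →
    (({χ : DirichletCharacter ℂ q | ¬ ∀ δ u : ℝ, δ₀ ≤ δ → |u - τ| ≤ δ / 2 →
      ‖FF (tb b (ω χ)) (((1 + δ : ℝ) : ℂ) + u * Complex.I)‖ ≤
        M * (Real.log (Real.log q) + C)}.ncard : ℕ) : ℝ) ≤ C * Real.log (1 / δ₀) ^ 3 := by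
  classical
  obtain ⟨C₁, hC₁, h1⟩ := split_bound
  have hl2 : (0.69 : ℝ) < Real.log 2 := by
    have := Real.log_two_gt_d9
    linarith
  have hl2' : Real.log 2 < 0.7 := by
    have := Real.log_two_lt_d9
    linarith
  have hZ : 0 ≤ ZZ (3 / 2) := tsum_nonneg fun x => div_nonneg (wt_nonneg _ _) (Nat.cast_nonneg _)
  have hll : -1 ≤ Real.log (Real.log 2) := by
    rw [Real.le_log_iff_exp_le (by linarith)]
    have h3 : Real.exp (-1) ≤ 1 / 2 := by
      rw [Real.exp_neg, inv_eq_one_div]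
      refine one_div_le_one_div_of_le (by norm_num) ?_
      have := Real.add_one_le_exp (1 : ℝ)
      linarith
    linarith
  set C : ℝ := max (C₁ + 4 + ZZ (3 / 2)) 30000 with hC
  have hCa : C₁ + 4 + ZZ (3 / 2) ≤ C := le_max_left _ _
  have hCb : (30000 : ℝ) ≤ C := le_max_right _ _
  refine ⟨C, by linarith, fun q hq _ b M hM hb ω hω τ δ₀ hδ₀ hδ₁ => ?_⟩
  have hqll : -1 ≤ Real.log (Real.log q) := by
    refine hll.trans (Real.log_le_log (by linarith) (Real.log_le_log (by norm_num) ?_))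
    exact_mod_cast hq
  set Λ : ℝ := Real.log (1 / δ₀) with hΛ
  have hΛ2 : Real.log 2 ≤ Λ := by
    refine Real.log_le_log (by norm_num) ?_
    rw [le_div_iff₀ hδ₀]
    linarith
  set K₀ : ℕ := ⌊Λ / Real.log 2⌋₊ with hK₀
  have hK : (K₀ : ℝ) ≤ Λ / Real.log 2 := Nat.floor_le (by
    have : 0 < Real.log 2 := by linarith
    have : 0 < Λ := by linarith
    positivity)
  set E : ℕ → Set (DirichletCharacter ℂ q) := fun k => {χ | M < ‖big q (tb b (ω χ))
    (((1 + (1 / 2 : ℝ) ^ k : ℝ) : ℂ) + τ * Complex.I)‖} with hE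
  have hbt : ∀ χ : DirichletCharacter ℂ q, ∀ x, ‖tb b (ω χ) x‖ ≤ M / (x.2 + 1 : ℕ) := by
    intro χ x
    rw [norm_tb]
    exact hb x
  -- the inclusion
  have hsub : {χ : DirichletCharacter ℂ q | ¬ ∀ δ u : ℝ, δ₀ ≤ δ → |u - τ| ≤ δ / 2 →
      ‖FF (tb b (ω χ)) (((1 + δ : ℝ) : ℂ) + u * Complex.I)‖ ≤
        M * (Real.log (Real.log q) + C)} ⊆ ⋃ k ∈ Finset.Icc 1 K₀, E k := by
    intro χ hχ
    by_contra hno
    apply hχ
    have hno' : ∀ k ∈ Finset.Icc 1 K₀, ‖big q (tb b (ω χ))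
        (((1 + (1 / 2 : ℝ) ^ k : ℝ) : ℂ) + τ * Complex.I)‖ ≤ M := by
      intro k hk
      by_contra h2
      push Not at h2
      exact hno (Set.mem_biUnion hk h2)
    intro δ u hδ hu
    by_cases hhalf : 1 / 2 ≤ δ
    · refine (far_bound (hbt χ) hhalf u).trans ?_
      refine mul_le_mul_of_nonneg_left ?_ hM.le
      linarith
    push Not at hhalf
    have hδ0 : 0 < δ := by linarith
    obtain ⟨k, hk1, hk2⟩ := exists_nat_pow_near (x := 1 / δ) (y := (2 : ℝ)) (by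
      rw [le_div_iff₀ hδ0]
      linarith) (by norm_num)
    have hkk : 1 ≤ k := by
      by_contra h2
      have h3 : k = 0 := by omega
      rw [h3] at hk2
      rw [div_lt_iff₀ hδ0] at hk2
      norm_num at hk2
      linarith
    have hkK : k ≤ K₀ := by
      refine Nat.le_floor ?_
      rw [le_div_iff₀ (by linarith)]
      have h3 : (2 : ℝ) ^ k ≤ 1 / δ₀ := hk1.trans (one_div_le_one_div_of_le hδ₀ hδ)
      have h4 := Real.log_le_log (by positivity) h3
      rw [Real.log_pow] at h4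
      exact h4
    have hbigk := hno' k (Finset.mem_Icc.2 ⟨hkk, hkK⟩)
    set h : ℝ := (1 / 2 : ℝ) ^ k with hh
    have hh0 : 0 < h := by positivity
    have hh1 : h ≤ 1 / 2 := by
      rw [hh]
      calc (1 / 2 : ℝ) ^ k ≤ (1 / 2 : ℝ) ^ 1 :=
            pow_le_pow_of_le_one (by norm_num) (by norm_num) hkk
        _ = 1 / 2 := pow_one _
    have hhe : h = 1 / 2 ^ k := by
      rw [hh, one_div_pow]
    have hδh : δ ≤ h := by
      rw [hhe, le_div_iff₀ (by positivity)]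
      rw [le_div_iff₀ hδ0] at hk1
      linarith
    have hhδ : h / 2 ≤ δ := by
      rw [hhe]
      rw [div_lt_iff₀ hδ0, pow_succ] at hk2
      rw [div_div, div_le_iff₀ (by positivity)]
      linarith
    have g1 := radial_move (hbt χ) hh0 hh1 hhδ hδh u
    have g2 := osc (hbt χ) hh0 hh1 (u := u) (t := τ) (by linarith)
    have g3 := h1 q hq (tb b (ω χ)) M (hbt χ) (((1 + h : ℝ) : ℂ) + τ * Complex.I) (by
      simp
      exact hh0)
    have e2 : FF (tb b (ω χ)) (((1 + δ : ℝ) : ℂ) + u * Complex.I) =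
        (FF (tb b (ω χ)) (((1 + δ : ℝ) : ℂ) + u * Complex.I) -
          FF (tb b (ω χ)) (((1 + h : ℝ) : ℂ) + u * Complex.I)) +
        ((FF (tb b (ω χ)) (((1 + h : ℝ) : ℂ) + u * Complex.I) -
          FF (tb b (ω χ)) (((1 + h : ℝ) : ℂ) + τ * Complex.I)) +
        ((FF (tb b (ω χ)) (((1 + h : ℝ) : ℂ) + τ * Complex.I) -
          big q (tb b (ω χ)) (((1 + h : ℝ) : ℂ) + τ * Complex.I)) +
          big q (tb b (ω χ)) (((1 + h : ℝ) : ℂ) + τ * Complex.I))) := by ring
    rw [e2]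
    refine (norm_add_le _ _).trans ((add_le_add g1 ((norm_add_le _ _).trans (add_le_add g2
      ((norm_add_le _ _).trans (add_le_add g3 hbigk))))).trans ?_)
    have : M * (C₁ + 4) ≤ M * C := mul_le_mul_of_nonneg_left (by linarith) hM.le
    nlinarith
  have hfin : ∀ A : Set (DirichletCharacter ℂ q), A.Finite := fun A => Set.toFinite A
  have hcount : ∀ k ∈ Finset.Icc 1 K₀, (((E k).ncard : ℕ) : ℝ) ≤ (128 * Λ) ^ 2 := by
    intro k hk
    rw [Finset.mem_Icc] at hk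
    have hh0 : (0 : ℝ) < (1 / 2 : ℝ) ^ k := by positivity
    have hh1 : (1 / 2 : ℝ) ^ k ≤ 1 / 2 := by
      calc (1 / 2 : ℝ) ^ k ≤ (1 / 2 : ℝ) ^ 1 :=
            pow_le_pow_of_le_one (by norm_num) (by norm_num) hk.1
        _ = 1 / 2 := pow_one _
    refine (count_level hq hM hb ω hω τ hh0 hh1).trans ?_
    have h3 : Real.log (2 / (1 / 2 : ℝ) ^ k) = (k + 1) * Real.log 2 := by
      rw [one_div_pow, div_div_eq_mul_div, div_one, ← pow_succ', Real.log_pow]
      push_cast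
      ring
    have h4 : (k : ℝ) ≤ Λ / Real.log 2 := le_trans (by exact_mod_cast hk.2) hK
    have h5 : (k : ℝ) * Real.log 2 ≤ Λ := by
      rwa [le_div_iff₀ (by linarith)] at h4
    have h6 : 0 ≤ (k + 1 : ℝ) * Real.log 2 := by positivity
    rw [h3]
    refine pow_le_pow_left₀ (by positivity) ?_ 2
    nlinarith
  have hcard : (((⋃ k ∈ Finset.Icc 1 K₀, E k).ncard : ℕ) : ℝ) ≤ K₀ * (128 * Λ) ^ 2 := by
    have h3 := Finset.set_ncard_biUnion_le (Finset.Icc 1 K₀) E
    calc (((⋃ k ∈ Finset.Icc 1 K₀, E k).ncard : ℕ) : ℝ) ≤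
          ((∑ k ∈ Finset.Icc 1 K₀, (E k).ncard : ℕ) : ℝ) := by exact_mod_cast h3
      _ = ∑ k ∈ Finset.Icc 1 K₀, (((E k).ncard : ℕ) : ℝ) := by push_cast; rfl
      _ ≤ ∑ k ∈ Finset.Icc 1 K₀, (128 * Λ) ^ 2 := Finset.sum_le_sum hcount
      _ = K₀ * (128 * Λ) ^ 2 := by
          rw [Finset.sum_const, nsmul_eq_mul, Nat.card_Icc]
          norm_num
  have hmono := Set.ncard_le_ncard hsub (hfin _)
  have hmono' : (({χ : DirichletCharacter ℂ q | ¬ ∀ δ u : ℝ, δ₀ ≤ δ → |u - τ| ≤ δ / 2 →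
      ‖FF (tb b (ω χ)) (((1 + δ : ℝ) : ℂ) + u * Complex.I)‖ ≤
        M * (Real.log (Real.log q) + C)}.ncard : ℕ) : ℝ) ≤
      (((⋃ k ∈ Finset.Icc 1 K₀, E k).ncard : ℕ) : ℝ) := by exact_mod_cast hmono
  refine hmono'.trans (hcard.trans ?_)
  have hΛ0 : 0 < Λ := by linarith
  calc (K₀ : ℝ) * (128 * Λ) ^ 2 ≤ (Λ / Real.log 2) * (128 * Λ) ^ 2 :=
        mul_le_mul_of_nonneg_right hK (by positivity)
    _ = 16384 / Real.log 2 * Λ ^ 3 := by ring
    _ ≤ C * Λ ^ 3 := by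
        refine mul_le_mul_of_nonneg_right ?_ (by positivity)
        rw [div_le_iff₀ (by linarith)]
        nlinarith

end Pool.Agent.TH339.TW
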