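import Pool.Agent.TH339.TW.A4

/-!
# Euler products twisted by Dirichlet characters
-/

set_option autoImplicit false

namespace Pool.Agent.TH339.TW

open Finset Pool.Agent.TH339.MP NumberField IsDedekindDomain Polynomial

/-- the Euler product twisted by a Dirichlet character -/
noncomputable def LL {K : Type} [Field K] [NumberField K] {q : ℕ}
    (P : HeightOneSpectrum (𝓞 K) → ℂ[X]) (χ : DirichletCharacter ℂ q) (s : ℂ) : ℂ :=
  ∏' v : HeightOneSpectrum (𝓞 K), ((P v).eval (χ ((nm v : ℕ) : ZMod q) * ((nm v : ℕ) : ℂ) ^ (-s)))⁻¹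

lemma exists_om {q : ℕ} (χ : DirichletCharacter ℂ q) : ∃ ω : Om, ∀ p : Nat.Primes,
    Nat.Coprime (p : ℕ) q → ((ω p : Circle) : ℂ) = χ ((p : ℕ) : ZMod q) := by
  refine ⟨fun p => Circle.exp (Complex.arg (χ ((p : ℕ) : ZMod q))), fun p hp => ?_⟩
  have h1 : ‖χ ((p : ℕ) : ZMod q)‖ = 1 := by
    obtain ⟨u, hu⟩ := (ZMod.isUnit_iff_coprime (p : ℕ) q).2 hp
    rw [← hu]
    exact DirichletCharacter.unit_norm_eq_one χ u
  rw [Circle.coe_exp]
  have h2 := Complex.norm_mul_exp_arg_mul_I (χ ((p : ℕ) : ZMod q))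
  rw [h1, Complex.ofReal_one, one_mul] at h2
  exact h2

/-- all twists by the characters modulo `q` at once -/
lemma exists_coeff {K : Type} [Field K] [NumberField K] {N : ℕ} (w : ℝ)
    (P : HeightOneSpectrum (𝓞 K) → ℂ[X])
    (h0 : ∀ v, (P v).coeff 0 = 1) (hN : ∀ v, (P v).natDegree ≤ N)
    (hroot : ∀ v, ∀ z : ℂ, (P v).IsRoot z → ((nm v : ℕ) : ℝ) ^ (-(w / 2)) ≤ ‖z‖) (q : ℕ) :
    ∃ b : PP → ℂ, (∀ x, ‖b x‖ ≤ ((Module.finrank ℚ K : ℝ) * N) / (x.2 + 1 : ℕ)) ∧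
      ∀ (χ : DirichletCharacter ℂ q) (ω : Om), (∀ p : Nat.Primes,
        Nat.Coprime (p : ℕ) q → ((ω p : Circle) : ℂ) = χ ((p : ℕ) : ZMod q)) →
        ∀ s : ℂ, 1 + w / 2 < s.re →
          LL P χ s = Complex.exp (FF (tb b ω) (s - (w / 2 : ℝ))) := by
  classical
  set P' : HeightOneSpectrum (𝓞 K) → ℂ[X] := fun v => if Nat.Coprime (nm v) q then P v else 1
    with hP'
  obtain ⟨b, hb, hL⟩ := hasProd_twist (K := K) (N := N) w P' (fun v => by
      simp only [hP']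
      split_ifs
      · exact h0 v
      · simp) (fun v => by
      simp only [hP']
      split_ifs
      · exact hN v
      · simp) (fun v z hz => by
      simp only [hP'] at hz
      split_ifs at hz
      · exact hroot v z hz
      · rw [IsRoot, eval_one] at hz
        exact absurd hz one_ne_zero)
  refine ⟨b, hb, fun χ ω hω s hs => ?_⟩
  rw [← (hL ω s hs).tprod_eq]
  unfold LL
  refine tprod_congr fun v => ?_
  congr 1
  simp only [hP']
  have hd := dg_pos v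
  by_cases hc : Nat.Coprime (nm v) q
  · rw [if_pos hc]
    have hc' : Nat.Coprime ((pr v : Nat.Primes) : ℕ) q := by
      rw [nm_eq] at hc
      exact (Nat.coprime_pow_left_iff hd _ _).1 hc
    have h2 : val ω (nm v) = χ ((nm v : ℕ) : ZMod q) := by
      rw [val_nm, hω _ hc']
      conv_rhs => rw [nm_eq]
      rw [Nat.cast_pow, map_pow]
    rw [h2]
  · rw [if_neg hc, eval_one]
    have h2 : χ ((nm v : ℕ) : ZMod q) = 0 :=
      χ.map_nonunit fun h => hc ((ZMod.isUnit_iff_coprime _ _).1 h)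
    rw [h2, zero_mul, ← coeff_zero_eq_eval_zero]
    exact h0 v

/-- **All but few twists near a point of the edge.** -/
theorem char_twists : ∃ C : ℝ, 30000 ≤ C ∧ ∀ (K : Type) [Field K] [NumberField K] (N : ℕ), 1 ≤ N →
    ∀ (w : ℝ) (P : HeightOneSpectrum (𝓞 K) → ℂ[X]),
    (∀ v, (P v).coeff 0 = 1) → (∀ v, (P v).natDegree ≤ N) →
    (∀ v, ∀ z : ℂ, (P v).IsRoot z → ((nm v : ℕ) : ℝ) ^ (-(w / 2)) ≤ ‖z‖) →
    ∀ q : ℕ, 2 ≤ q → ∀ (τ δ₀ : ℝ), 0 < δ₀ → δ₀ ≤ 1 / 2 →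
    (({χ : DirichletCharacter ℂ q | ¬ ∀ s : ℂ, δ₀ ≤ s.re - (1 + w / 2) →
      |s.im - τ| ≤ (s.re - (1 + w / 2)) / 2 →
      ((C * Real.log q) ^ (Module.finrank ℚ K * N))⁻¹ ≤ ‖LL P χ s‖ ∧
        ‖LL P χ s‖ ≤ (C * Real.log q) ^ (Module.finrank ℚ K * N)}.ncard : ℕ) : ℝ) ≤
      C * Real.log (1 / δ₀) ^ 3 := by
  obtain ⟨C, hC0, hC⟩ := twists
  set C' : ℝ := Real.exp (max C 30000) with hC'
  have hCC : max C 30000 ≤ C' := by
    have := Real.add_one_le_exp (max C 30000)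
    linarith
  refine ⟨C', (le_max_right _ _).trans hCC, ?_⟩
  intro K _ _ N hN w P h0 hNd hroot q hq τ δ₀ hδ₀ hδ₁
  have hq0 : q ≠ 0 := by omega
  have : NeZero q := ⟨hq0⟩
  obtain ⟨b, hb, hL⟩ := exists_coeff w P h0 hNd hroot q
  choose ω hω using fun χ : DirichletCharacter ℂ q => exists_om χ
  have hn : 1 ≤ Module.finrank ℚ K := Module.finrank_pos
  have hM : (0 : ℝ) < (Module.finrank ℚ K : ℝ) * N := by
    have h1 : (1 : ℝ) ≤ (Module.finrank ℚ K : ℝ) := by exact_mod_cast hn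
    have h2 : (1 : ℝ) ≤ (N : ℝ) := by exact_mod_cast hN
    positivity
  have hmain := hC q hq b _ hM hb ω hω τ δ₀ hδ₀ hδ₁
  have hlq : 0 < Real.log q := Real.log_pos (by exact_mod_cast (by omega : 1 < q))
  have hpow : Real.exp (((Module.finrank ℚ K : ℝ) * N) * (Real.log (Real.log q) + C)) ≤
      (C' * Real.log q) ^ (Module.finrank ℚ K * N) := by
    have h1 : ((Module.finrank ℚ K : ℝ) * N) * (Real.log (Real.log q) + C) =
        ((Module.finrank ℚ K * N : ℕ) : ℝ) * (Real.log (Real.log q) + C) := by push_cast; ring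
    rw [h1, Real.exp_nat_mul, Real.exp_add, Real.exp_log hlq, mul_comm (Real.log q)]
    refine pow_le_pow_left₀ (by positivity) (mul_le_mul_of_nonneg_right ?_ hlq.le) _
    exact Real.exp_le_exp.2 (le_max_left _ _)
  have hlog : 0 ≤ Real.log (1 / δ₀) := Real.log_nonneg (by
    rw [le_div_iff₀ hδ₀]
    linarith)
  have hsub : {χ : DirichletCharacter ℂ q | ¬ ∀ s : ℂ, δ₀ ≤ s.re - (1 + w / 2) →
      |s.im - τ| ≤ (s.re - (1 + w / 2)) / 2 →
      ((C' * Real.log q) ^ (Module.finrank ℚ K * N))⁻¹ ≤ ‖LL P χ s‖ ∧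
        ‖LL P χ s‖ ≤ (C' * Real.log q) ^ (Module.finrank ℚ K * N)} ⊆
      {χ : DirichletCharacter ℂ q | ¬ ∀ δ u : ℝ, δ₀ ≤ δ → |u - τ| ≤ δ / 2 →
      ‖FF (tb b (ω χ)) (((1 + δ : ℝ) : ℂ) + u * Complex.I)‖ ≤
        ((Module.finrank ℚ K : ℝ) * N) * (Real.log (Real.log q) + C)} := by
    intro χ hχ hgood
    apply hχ
    intro s hs1 hs2
    have h1 := hgood (s.re - (1 + w / 2)) s.im hs1 hs2
    have h2 : (((1 + (s.re - (1 + w / 2)) : ℝ) : ℂ) + s.im * Complex.I) = s - (w / 2 : ℝ) := by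
      apply Complex.ext
      · simp only [Complex.add_re, Complex.ofReal_re, Complex.mul_re, Complex.I_re, Complex.I_im,
          Complex.ofReal_im, mul_zero, zero_mul, sub_zero, Complex.sub_re, add_zero]
        ring
      · simp only [Complex.add_im, Complex.ofReal_re, Complex.mul_im, Complex.I_re, Complex.I_im,
          Complex.ofReal_im, mul_zero, mul_one, sub_zero, Complex.sub_im, add_zero, zero_add]
    rw [h2] at h1
    rw [hL χ (ω χ) (hω χ) s (by linarith), Complex.norm_exp]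
    set z : ℂ := FF (tb b (ω χ)) (s - (w / 2 : ℝ)) with hz
    have h3 := Complex.abs_re_le_norm z
    have h4 := abs_le.1 (h3.trans h1)
    refine ⟨?_, (Real.exp_le_exp.2 h4.2).trans hpow⟩
    refine (inv_anti₀ (Real.exp_pos _) hpow).trans ?_
    rw [← Real.exp_neg]
    exact Real.exp_le_exp.2 h4.1
  have hmono := Set.ncard_le_ncard hsub (Set.toFinite _)
  refine le_trans (by exact_mod_cast hmono) (hmain.trans ?_)
  refine mul_le_mul_of_nonneg_right ((le_max_left _ _).trans hCC) (by positivity)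

end Pool.Agent.TH339.TW
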