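import Pool.Agent.TH339.TW.A5

/-!
# Values on the edge of the twists with a local continuation
-/

set_option autoImplicit false

namespace Pool.Agent.TH339.TW

open Finset Pool.Agent.TH339.MP NumberField IsDedekindDomain Polynomial

/-- **All but few twists near a point of the edge, and at this point.** -/
theorem char_values : ∃ C : ℝ, 0 < C ∧ ∀ (K : Type) [Field K] [NumberField K] (N : ℕ), 1 ≤ N →
    ∀ (w : ℝ) (P : HeightOneSpectrum (𝓞 K) → ℂ[X]),
    (∀ v, (P v).coeff 0 = 1) → (∀ v, (P v).natDegree ≤ N) →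
    (∀ v, ∀ z : ℂ, (P v).IsRoot z → ((nm v : ℕ) : ℝ) ^ (-(w / 2)) ≤ ‖z‖) →
    ∀ q : ℕ, 2 ≤ q → ∀ (τ : ℝ),
    (∀ δ₀ : ℝ, 0 < δ₀ → δ₀ ≤ 1 / 2 →
      (({χ : DirichletCharacter ℂ q | ¬ ∀ s : ℂ, δ₀ ≤ s.re - (1 + w / 2) →
        |s.im - τ| ≤ (s.re - (1 + w / 2)) / 2 →
        ((C * Real.log q) ^ (Module.finrank ℚ K * N))⁻¹ ≤ ‖LL P χ s‖ ∧
          ‖LL P χ s‖ ≤ (C * Real.log q) ^ (Module.finrank ℚ K * N)}.ncard : ℕ) : ℝ) ≤
        C * Real.log (1 / δ₀) ^ 3) ∧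
    ∀ r B : ℝ, 0 < r → r ≤ 1 → 1 ≤ B →
      (({χ : DirichletCharacter ℂ q | ∃ f : ℂ → ℂ,
        DifferentiableOn ℂ f (Metric.ball (((1 + w / 2 : ℝ) : ℂ) + τ * Complex.I) r) ∧
        (∀ s ∈ Metric.ball (((1 + w / 2 : ℝ) : ℂ) + τ * Complex.I) r, ‖f s‖ ≤ B ∧
          (1 + w / 2 < s.re → f s = LL P χ s)) ∧
        ¬ (((C * Real.log q) ^ (Module.finrank ℚ K * N))⁻¹ / 2 ≤
            ‖f (((1 + w / 2 : ℝ) : ℂ) + τ * Complex.I)‖ ∧
          ‖f (((1 + w / 2 : ℝ) : ℂ) + τ * Complex.I)‖ ≤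
            2 * (C * Real.log q) ^ (Module.finrank ℚ K * N))}.ncard : ℕ) : ℝ) ≤
        C * (Real.log (B / r) +
          ((Module.finrank ℚ K : ℝ) * N) * Real.log (C * Real.log q)) ^ 3 := by
  obtain ⟨C, hC0, hC⟩ := char_twists
  refine ⟨8 * C, by linarith, ?_⟩
  intro K _ _ N hN w P h0 hNd hroot q hq τ
  have : NeZero q := ⟨by omega⟩
  have hcount := hC K N hN w P h0 hNd hroot q hq τ
  have hl2 : (0.69 : ℝ) < Real.log 2 := by
    have := Real.log_two_gt_d9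
    linarith
  have hlq : 0.69 < Real.log q := by
    have : Real.log 2 ≤ Real.log q := Real.log_le_log (by norm_num) (by exact_mod_cast hq)
    linarith
  have hn : 1 ≤ Module.finrank ℚ K := Module.finrank_pos
  have hm : 1 ≤ Module.finrank ℚ K * N := Nat.one_le_iff_ne_zero.2 (by positivity)
  set m : ℕ := Module.finrank ℚ K * N with hmdef
  have hbase : (C * Real.log q) ≤ 8 * C * Real.log q := by nlinarith
  have hQ : (C * Real.log q) ^ m ≤ (8 * C * Real.log q) ^ m :=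
    pow_le_pow_left₀ (by nlinarith) hbase m
  have hQ0 : 0 < (C * Real.log q) ^ m := by
    have : 0 < C * Real.log q := by nlinarith
    positivity
  set Q : ℝ := (8 * C * Real.log q) ^ m with hQdef
  have hb6 : 6 ≤ 8 * C * Real.log q := by nlinarith
  have hQ6 : 6 ≤ Q := by
    calc (6 : ℝ) ≤ 8 * C * Real.log q := hb6
      _ = (8 * C * Real.log q) ^ 1 := (pow_one _).symm
      _ ≤ Q := pow_le_pow_right₀ (by linarith) hm
  have hfirst : ∀ δ₀ : ℝ, 0 < δ₀ → δ₀ ≤ 1 / 2 →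
      (({χ : DirichletCharacter ℂ q | ¬ ∀ s : ℂ, δ₀ ≤ s.re - (1 + w / 2) →
        |s.im - τ| ≤ (s.re - (1 + w / 2)) / 2 →
        Q⁻¹ ≤ ‖LL P χ s‖ ∧ ‖LL P χ s‖ ≤ Q}.ncard : ℕ) : ℝ) ≤
        C * Real.log (1 / δ₀) ^ 3 := by
    intro δ₀ h1 h2
    refine le_trans ?_ (hcount δ₀ h1 h2)
    have hsub : {χ : DirichletCharacter ℂ q | ¬ ∀ s : ℂ, δ₀ ≤ s.re - (1 + w / 2) →
        |s.im - τ| ≤ (s.re - (1 + w / 2)) / 2 →
        Q⁻¹ ≤ ‖LL P χ s‖ ∧ ‖LL P χ s‖ ≤ Q} ⊆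
        {χ : DirichletCharacter ℂ q | ¬ ∀ s : ℂ, δ₀ ≤ s.re - (1 + w / 2) →
        |s.im - τ| ≤ (s.re - (1 + w / 2)) / 2 →
        ((C * Real.log q) ^ m)⁻¹ ≤ ‖LL P χ s‖ ∧ ‖LL P χ s‖ ≤ (C * Real.log q) ^ m} := by
      intro χ hχ hgood
      apply hχ
      intro s h3 h4
      obtain ⟨h5, h6⟩ := hgood s h3 h4
      exact ⟨(inv_anti₀ hQ0 hQ).trans h5, h6.trans hQ⟩
    exact_mod_cast Set.ncard_le_ncard hsub (Set.toFinite _)
  refine ⟨fun δ₀ h1 h2 => (hfirst δ₀ h1 h2).trans ?_, ?_⟩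
  · have hlog : 0 ≤ Real.log (1 / δ₀) := Real.log_nonneg (by
      rw [le_div_iff₀ h1]
      linarith)
    exact mul_le_mul_of_nonneg_right (by linarith) (by positivity)
  intro r B hr hr1 hB
  set s₀ : ℂ := ((1 + w / 2 : ℝ) : ℂ) + τ * Complex.I with hs₀
  have hre₀ : s₀.re = 1 + w / 2 := by
    simp only [hs₀, Complex.add_re, Complex.ofReal_re, Complex.mul_re, Complex.I_re, Complex.I_im,
      Complex.ofReal_im, mul_zero, zero_mul, sub_zero, add_zero]
  have him₀ : s₀.im = τ := by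
    simp only [hs₀, Complex.add_im, Complex.ofReal_re, Complex.mul_im, Complex.I_re, Complex.I_im,
      Complex.ofReal_im, mul_zero, mul_one, add_zero, zero_add]
  set δ₀ : ℝ := r / (6 * B * Q) with hδ₀
  have hBQ : 6 ≤ B * Q := by nlinarith
  have hδpos : 0 < δ₀ := by positivity
  have hδr : δ₀ ≤ r / 36 := by
    rw [hδ₀]
    exact div_le_div_of_nonneg_left hr.le (by norm_num) (by nlinarith)
  have hδ1 : δ₀ ≤ 1 / 2 := by linarith
  have hsub : {χ : DirichletCharacter ℂ q | ∃ f : ℂ → ℂ,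
        DifferentiableOn ℂ f (Metric.ball s₀ r) ∧
        (∀ s ∈ Metric.ball s₀ r, ‖f s‖ ≤ B ∧ (1 + w / 2 < s.re → f s = LL P χ s)) ∧
        ¬ (Q⁻¹ / 2 ≤ ‖f s₀‖ ∧ ‖f s₀‖ ≤ 2 * Q)} ⊆
      {χ : DirichletCharacter ℂ q | ¬ ∀ s : ℂ, δ₀ ≤ s.re - (1 + w / 2) →
        |s.im - τ| ≤ (s.re - (1 + w / 2)) / 2 →
        Q⁻¹ ≤ ‖LL P χ s‖ ∧ ‖LL P χ s‖ ≤ Q} := by
    rintro χ ⟨f, hfd, hf, hno⟩ hgood
    apply hno
    set s : ℂ := s₀ + (δ₀ : ℂ) with hs
    have hsre : s.re = 1 + w / 2 + δ₀ := by rw [hs, Complex.add_re, hre₀, Complex.ofReal_re]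
    have hsim : s.im = τ := by rw [hs, Complex.add_im, him₀, Complex.ofReal_im, add_zero]
    have hdist : dist s s₀ = δ₀ := by
      rw [dist_eq_norm, hs, add_sub_cancel_left, Complex.norm_real, Real.norm_of_nonneg hδpos.le]
    have hmem : s ∈ Metric.ball s₀ r := by
      rw [Metric.mem_ball, hdist]
      linarith
    have hmem₀ : s₀ ∈ Metric.ball s₀ r := Metric.mem_ball_self hr
    obtain ⟨h5, h6⟩ := hgood s (by rw [hsre]; linarith) (by
      rw [hsim, hsre, sub_self, abs_zero]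
      linarith)
    rw [← (hf s hmem).2 (by rw [hsre]; linarith)] at h5 h6
    have hmaps : Set.MapsTo f (Metric.ball s₀ r) (Metric.ball (f s₀) (3 * B)) := by
      intro y hy
      rw [Metric.mem_ball, dist_eq_norm]
      have h7 := norm_sub_le (f y) (f s₀)
      have h8 := (hf y hy).1
      have h9 := (hf s₀ hmem₀).1
      linarith
    have h10 := Complex.dist_le_div_mul_dist_of_mapsTo_ball hfd
      (hmaps.mono_right Metric.ball_subset_closedBall) hmem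
    rw [hdist, dist_eq_norm] at h10
    have h11 : 3 * B / r * δ₀ = Q⁻¹ / 2 := by
      rw [hδ₀]
      have : B ≠ 0 := by positivity
      have : Q ≠ 0 := by positivity
      field_simp
      norm_num
    rw [h11] at h10
    have h12 := norm_sub_norm_le (f s) (f s₀)
    have h13 : ‖f s₀‖ - ‖f s‖ ≤ ‖f s - f s₀‖ := by
      rw [norm_sub_rev]
      exact norm_sub_norm_le _ _
    have h14 : Q⁻¹ ≤ 1 := inv_le_one_of_one_le₀ (by linarith)
    constructor
    · linarith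
    · linarith
  have h1 := hfirst δ₀ hδpos hδ1
  have h2 := Set.ncard_le_ncard hsub (Set.toFinite _)
  refine le_trans (by exact_mod_cast h2) (h1.trans ?_)
  have hBr : 0 ≤ Real.log (B / r) := Real.log_nonneg (by
    rw [le_div_iff₀ hr]
    linarith)
  have hlogQ : Real.log Q = ((Module.finrank ℚ K : ℝ) * N) * Real.log (8 * C * Real.log q) := by
    rw [hQdef, Real.log_pow, hmdef]
    push_cast
    ring
  have hlog6 : Real.log 6 ≤ Real.log Q := Real.log_le_log (by norm_num) hQ6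
  have hlog60 : 0 ≤ Real.log 6 := Real.log_nonneg (by norm_num)
  have hlogδ : Real.log (1 / δ₀) = Real.log 6 + Real.log (B / r) + Real.log Q := by
    rw [← Real.log_mul (by norm_num) (by positivity), ← Real.log_mul (by positivity) (by positivity)]
    congr 1
    rw [hδ₀]
    field_simp
  rw [hlogδ, ← hlogQ]
  have h3 : (Real.log 6 + Real.log (B / r) + Real.log Q) ^ 3 ≤
      (2 * (Real.log (B / r) + Real.log Q)) ^ 3 :=
    pow_le_pow_left₀ (by linarith) (by linarith) 3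
  calc C * (Real.log 6 + Real.log (B / r) + Real.log Q) ^ 3 ≤
        C * (2 * (Real.log (B / r) + Real.log Q)) ^ 3 :=
        mul_le_mul_of_nonneg_left h3 (by linarith)
    _ = 8 * C * (Real.log (B / r) + Real.log Q) ^ 3 := by ring

end Pool.Agent.TH339.TW
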